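import Mathlib
import Pool.Agent.helper81.DI.SpecC

set_option autoImplicit false

namespace Pool.Agent.DI

open Pool.Agent.helper58.DC

open Classical in
theorem C6_orbit {X G : Type} [Fintype X] [Group G] [MulAction G X] (p : ℕ)
    [Fact p.Prime] (hG : IsPGroup p G) [Finite G] (F : X → ℂ) (hF : ∀ (g : G) x, F (g • x) = F x)
    (hi : ∀ x, IsIntegral ℤ (F x)) :
    ∃ a : ℂ, IsIntegral ℤ a ∧
      ∑ x, F x = ∑ x ∈ Finset.univ.filter (fun x => x ∈ MulAction.fixedPoints G X), F x + p * a := by
  have key : ∀ q : MulAction.orbitRel.Quotient G X, ∃ a : ℂ, IsIntegral ℤ a ∧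
      ∑ x ∈ (Finset.univ.filter (fun x : X => x ∉ MulAction.fixedPoints G X)).filter
        (fun x => (Quotient.mk (MulAction.orbitRel G X) x : MulAction.orbitRel.Quotient G X) = q),
        F x = p * a := by
    intro q
    induction q using Quotient.inductionOn with
    | h x0 =>
    by_cases hx : x0 ∈ MulAction.fixedPoints G X
    · refine ⟨0, isIntegral_zero, ?_⟩
      rw [mul_zero]
      apply Finset.sum_eq_zero
      intro x hx'
      rw [Finset.mem_filter, Finset.mem_filter] at hx'
      obtain ⟨⟨_, h1⟩, h2⟩ := hx'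
      have h3 : x ∈ MulAction.orbit G x0 := Quotient.exact h2
      obtain ⟨g, hg⟩ := h3
      exfalso
      apply h1
      have : x = x0 := by
        rw [← hg]; exact hx g
      rw [this]; exact hx
    · have hset : (Finset.univ.filter (fun x : X => x ∉ MulAction.fixedPoints G X)).filter
        (fun x => (Quotient.mk (MulAction.orbitRel G X) x : MulAction.orbitRel.Quotient G X) =
          Quotient.mk (MulAction.orbitRel G X) x0)
          = (Set.toFinite (MulAction.orbit G x0)).toFinset := by
        ext x
        rw [Finset.mem_filter, Finset.mem_filter, Set.Finite.mem_toFinset]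
        constructor
        · rintro ⟨_, h2⟩
          exact Quotient.exact h2
        · intro h
          refine ⟨⟨Finset.mem_univ _, ?_⟩, Quotient.sound h⟩
          intro hfix
          apply hx
          obtain ⟨g, hg⟩ := h
          have h4 : x0 = g⁻¹ • x := by rw [← hg]; simp
          rw [h4, hfix g⁻¹]
          exact hfix
      have hcard : ∃ n, Nat.card (MulAction.orbit G x0) = p ^ n := hG.card_orbit x0
      obtain ⟨n, hn⟩ := hcard
      have hn0 : n ≠ 0 := by
        rintro rfl
        apply hx
        rw [pow_zero, Nat.card_eq_one_iff_unique] at hn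
        obtain ⟨hs, _⟩ := hn
        intro g
        have := @Subsingleton.elim _ hs ⟨g • x0, MulAction.mem_orbit x0 g⟩
          ⟨x0, MulAction.mem_orbit_self x0⟩
        exact congrArg Subtype.val this
      obtain ⟨m, rfl⟩ := Nat.exists_eq_succ_of_ne_zero hn0
      refine ⟨(p : ℂ) ^ m * F x0, ?_, ?_⟩
      · refine IsIntegral.mul (IsIntegral.pow ?_ _) (hi x0)
        have h5 : IsIntegral ℤ (algebraMap ℤ ℂ (p : ℤ)) := isIntegral_algebraMap
        simpa using h5
      · rw [hset, Finset.sum_congr rfl (g := fun _ => F x0)]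
        · rw [Finset.sum_const, nsmul_eq_mul]
          have : (Set.toFinite (MulAction.orbit G x0)).toFinset.card = p ^ (m + 1) := by
            rw [← hn, Nat.card_eq_card_finite_toFinset]
          rw [this]
          push_cast
          ring
        · intro x hx'
          rw [Set.Finite.mem_toFinset] at hx'
          obtain ⟨g, hg⟩ := hx'
          rw [← hg]
          exact hF g x0
  choose a ha hsum using key
  have : Finite (MulAction.orbitRel.Quotient G X) := Quotient.finite _
  let _ : Fintype (MulAction.orbitRel.Quotient G X) := Fintype.ofFinite _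
  refine ⟨∑ q, a q, IsIntegral.sum _ fun q _ => ha q, ?_⟩
  rw [← Finset.sum_filter_add_sum_filter_not Finset.univ
    (fun x => x ∈ MulAction.fixedPoints G X) F]
  congr 1
  rw [← Finset.sum_fiberwise (Finset.univ.filter (fun x : X => x ∉ MulAction.fixedPoints G X))
    (fun x => (Quotient.mk (MulAction.orbitRel G X) x : MulAction.orbitRel.Quotient G X)) F,
    Finset.mul_sum]
  exact Finset.sum_congr rfl fun q _ => hsum q

open Classical in
theorem C6 : C6_stmt := by
  intro Γ _ _ p _ P hP z w hz hw c hc
  let _ : Fintype Γ := Fintype.ofFinite Γ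
  let _ : MulAction P Γ := MulAction.compHom Γ ((MulAut.conj : Γ →* MulAut Γ).comp P.subtype)
  have hact : ∀ (u : P) (x : Γ), u • x = (u : Γ) * x * (u : Γ)⁻¹ := fun u x => rfl
  have hcu : ∀ u : P, (u : Γ) * c = c * (u : Γ) := by
    intro u
    exact (Subgroup.mem_centralizer_iff.1 hc (u : Γ) u.2)
  obtain ⟨a, ha, hsum⟩ := C6_orbit p hP (fun x : Γ => z x * w (x⁻¹ * c))
    (by
      intro u x
      simp only [hact]
      rw [hz.1 x u]
      congr 1
      have : ((u : Γ) * x * (u : Γ)⁻¹)⁻¹ * c = (u : Γ) * (x⁻¹ * c) * (u : Γ)⁻¹ := by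
        have h := hcu u
        have h2 : (u : Γ)⁻¹ * c = c * (u : Γ)⁻¹ := by
          rw [inv_mul_eq_iff_eq_mul, ← mul_assoc, h, mul_assoc, mul_inv_cancel, mul_one]
        simp only [mul_inv_rev, inv_inv, mul_assoc]
        rw [h2]
      rw [this, hw.1])
    (fun x => IsIntegral.mul (hz.2 _) (hw.2 _))
  refine ⟨a, ha, ?_⟩
  have h1 : cv z w c = ∑ x, z x * w (x⁻¹ * c) := by
    rw [cv, finsum_eq_sum_of_fintype]
  have h2 : cv (fun x => if x ∈ cz P then z x else 0) (fun x => if x ∈ cz P then w x else 0) c
      = ∑ x ∈ Finset.univ.filter (fun x => x ∈ MulAction.fixedPoints P Γ), z x * w (x⁻¹ * c) := by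
    rw [cv, finsum_eq_sum_of_fintype, Finset.sum_filter]
    apply Finset.sum_congr rfl
    intro x _
    have hfix : x ∈ MulAction.fixedPoints P Γ ↔ x ∈ cz P := by
      rw [Subgroup.mem_centralizer_iff]
      constructor
      · intro h u hu
        have := h ⟨u, hu⟩
        rw [hact] at this
        simp only at this
        rw [mul_inv_eq_iff_eq_mul] at this
        exact this
      · intro h u
        rw [hact, mul_inv_eq_iff_eq_mul]
        exact h u u.2
    by_cases hx : x ∈ cz P
    · rw [if_pos (hfix.2 hx), if_pos hx, if_pos]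
      exact (cz P).mul_mem ((cz P).inv_mem hx) hc
    · rw [if_neg (fun h => hx (hfix.1 h)), if_neg hx, zero_mul]
  rw [h1, h2]
  exact hsum

end Pool.Agent.DI
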